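import Pool.Agent.H27.Iso13

open Pool.Agent.H27

namespace Pool.Agent.Results.MP_eb4995_an.NotLS

/-- For every `N ≥ 2` and `2 < q < 2*` some bounded open set (connected if `N ≥ 3`) has a
`q`-eigenvalue that is not a Lusternik-Schnirelman value. -/
theorem result (N : ℕ) (hN : 2 ≤ N) (q : ℝ) (hq : 2 < q) (hqN : ((N : ℝ) - 2) * q < 2 * N) :
    ∃ Ω : Set (EuclideanSpace ℝ (Fin N)), IsOpen Ω ∧ Bornology.IsBounded Ω ∧ Ω.Nonempty ∧
      (3 ≤ N → IsConnected Ω) ∧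
      ∃ l ∈ QSpec.Spec Ω q, ∀ k, 1 ≤ k → QSpec.lamLS Ω q k ≠ l :=
  Iso.ls_example hN hq hqN

end Pool.Agent.Results.MP_eb4995_an.NotLS
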